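import Mathlib

/-! # Sweeping sets of small measure for aperiodic maps -/

set_option autoImplicit false
set_option linter.unusedSectionVars false

open MeasureTheory Set

namespace Pool.Agent.H201.Ap

variable {X : Type} [MeasurableSpace X]

lemma iter_add (T : X → X) (i j : ℕ) (x : X) : T^[i + j] x = T^[i] (T^[j] x) := by
  rw [Function.iterate_add]
  rfl

/-- Countably many measurable sets which are disjoint from their first preimages cover almost everything. -/
lemma exists_free [MeasurableSpace.CountablySeparated X] (T : X → X) (hT : Measurable T) (n : ℕ) :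
    ∃ U : ℕ → Set X, (∀ k, MeasurableSet (U k)) ∧ (∀ k, ∀ x ∈ U k, ∀ i, 1 ≤ i → i < n → T^[i] x ∉ U k) ∧
      ∀ x, (∀ i, 1 ≤ i → T^[i] x ≠ x) → ∃ k, x ∈ U k := by
  classical
  obtain ⟨S, hS1, hS2⟩ := exists_seq_separating X (p := MeasurableSet) MeasurableSet.empty Set.univ
  obtain ⟨e, he⟩ := exists_surjective_nat (ℕ × Finset ℕ)
  let C : ℕ × Finset ℕ → Set X := fun c => ⋂ j ∈ Finset.range c.1, {x | x ∈ S j ↔ j ∈ c.2}
  have hC : ∀ c, MeasurableSet (C c) := by
    intro c
    refine Finset.measurableSet_biInter _ fun j _ => ?_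
    by_cases h : j ∈ c.2
    · simp only [h, iff_true]
      exact hS1 j
    · simp only [h, iff_false]
      exact (hS1 j).compl
  refine ⟨fun k => C (e k) \ ⋃ i ∈ Finset.Ico 1 n, T^[i] ⁻¹' C (e k), ?_, ?_, ?_⟩
  · intro k
    refine (hC _).diff (Finset.measurableSet_biUnion _ fun i _ => ?_)
    exact (hT.iterate i) (hC _)
  · intro k x hx i hi1 hi2 hx'
    apply hx.2
    simp only [mem_iUnion, Finset.mem_Ico, exists_prop]
    exact ⟨i, ⟨hi1, hi2⟩, hx'.1⟩
  · intro x hx
    have h1 : ∀ i, 1 ≤ i → ∃ j, ¬ (x ∈ S j ↔ T^[i] x ∈ S j) := by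
      intro i hi
      by_contra hcon
      push Not at hcon
      exact hx i hi (hS2 x (mem_univ _) _ (mem_univ _) (fun j => hcon j)).symm
    choose! j hj using h1
    obtain ⟨m, hm⟩ : ∃ m, ∀ i, 1 ≤ i → i < n → j i < m := by
      refine ⟨(Finset.Ico 1 n).sup j + 1, fun i h1 h2 => ?_⟩
      have := Finset.le_sup (f := j) (Finset.mem_Ico.2 ⟨h1, h2⟩)
      omega
    obtain ⟨k, hk⟩ := he (m, (Finset.range m).filter (fun j => x ∈ S j))
    refine ⟨k, ?_⟩
    simp only [hk]
    refine ⟨?_, ?_⟩
    · simp only [C, mem_iInter, Finset.mem_range, mem_ofPred_eq, Finset.mem_filter]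
      intro l hl
      tauto
    · simp only [C, mem_iUnion, Finset.mem_Ico, exists_prop, mem_preimage, mem_iInter, Finset.mem_range, mem_ofPred_eq,
        Finset.mem_filter, not_exists, not_and]
      intro i hi h2
      apply hj i hi.1
      have h3 := h2 (j i) (hm i hi.1 hi.2)
      have h4 := hm i hi.1 hi.2
      tauto

/-- A sweeping set of small measure. -/
theorem exists_sweep [MeasurableSpace.CountablySeparated X] (μ : Measure X) [IsProbabilityMeasure μ] (T : X → X)
    (hT : MeasurePreserving T μ μ) (hap : ∀ᵐ x ∂μ, ∀ i, 1 ≤ i → T^[i] x ≠ x) (n : ℕ) :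
    ∃ B, MeasurableSet B ∧ n * μ B ≤ 1 ∧ ∀ᵐ x ∂μ, ∃ i, T^[i] x ∈ B := by
  classical
  obtain ⟨U, hU1, hU2, hU3⟩ := exists_free T hT.measurable n
  let H : ℕ → Set X := fun k => ⋃ j ∈ Finset.range k, ⋃ i, T^[i] ⁻¹' U j
  have hHm : ∀ k, MeasurableSet (H k) := fun k =>
    Finset.measurableSet_biUnion _ fun j _ => MeasurableSet.iUnion fun i => (hT.measurable.iterate i) (hU1 j)
  have hmem : ∀ k x, x ∈ H k ↔ ∃ j, j < k ∧ ∃ i, T^[i] x ∈ U j := by
    intro k x
    simp only [H, mem_iUnion, Finset.mem_range, mem_preimage, exists_prop]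
  have hinv : ∀ k x i, T^[i] x ∈ H k → x ∈ H k := by
    intro k x i hx
    obtain ⟨j, hj, l, hl⟩ := (hmem _ _).1 hx
    exact (hmem _ _).2 ⟨j, hj, l + i, by rw [iter_add]; exact hl⟩
  let D : ℕ → Set X := fun k => U k \ H k
  have hDm : ∀ k, MeasurableSet (D k) := fun k => (hU1 k).diff (hHm k)
  have hstep : ∀ k, n * ∑ j ∈ Finset.range k, μ (D j) ≤ μ (H k) := by
    intro k
    induction k with
    | zero => simp
    | succ k ih =>
      rw [Finset.sum_range_succ, mul_add]
      have h1 : μ (T^[n] ⁻¹' H k) = μ (H k) := (hT.iterate n).measure_preimage (hHm k).nullMeasurableSet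
      have h2 : μ (⋃ i ∈ Finset.range n, T^[i] ⁻¹' D k) = n * μ (D k) := by
        rw [measure_biUnion_finset]
        · rw [Finset.sum_congr rfl fun i _ => (hT.iterate i).measure_preimage (hDm k).nullMeasurableSet]
          simp
        · intro i hi i' hi' hne
          rw [Function.onFun, Set.disjoint_left]
          intro x hx hx'
          have key : ∀ a b : ℕ, a < b → b < n → T^[a] x ∈ D k → T^[b] x ∈ D k → False := by
            intro a b hab hb ha hb'
            have h3 := hU2 k _ ha.1 (b - a) (by omega) (by omega)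
            rw [← iter_add, Nat.sub_add_cancel hab.le] at h3
            exact h3 hb'.1
          simp only [Finset.coe_range, mem_Iio] at hi hi'
          rcases lt_or_gt_of_ne hne with h | h
          · exact key i i' h hi' hx hx'
          · exact key i' i h hi hx' hx
        · intro i _
          exact (hT.measurable.iterate i) (hDm k)
      have h3 : μ (T^[n] ⁻¹' H k ∪ ⋃ i ∈ Finset.range n, T^[i] ⁻¹' D k) =
          μ (T^[n] ⁻¹' H k) + μ (⋃ i ∈ Finset.range n, T^[i] ⁻¹' D k) := by
        apply measure_union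
        · rw [Set.disjoint_left]
          intro x hx hx'
          simp only [mem_iUnion, Finset.mem_range, mem_preimage, exists_prop] at hx'
          obtain ⟨i, hi, hx'⟩ := hx'
          apply hx'.2
          apply hinv k _ (n - i)
          rw [← iter_add, Nat.sub_add_cancel hi.le]
          exact hx
        · exact Finset.measurableSet_biUnion _ fun i _ => (hT.measurable.iterate i) (hDm k)
      calc _ ≤ μ (H k) + n * μ (D k) := by gcongr
        _ = μ (T^[n] ⁻¹' H k ∪ ⋃ i ∈ Finset.range n, T^[i] ⁻¹' D k) := by rw [h3, h1, h2]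
        _ ≤ μ (H (k + 1)) := by
          refine measure_mono ?_
          rintro x (hx | hx)
          · obtain ⟨j, hj, l, hl⟩ := (hmem _ _).1 (hinv k x n hx)
            exact (hmem _ _).2 ⟨j, by omega, l, hl⟩
          · simp only [mem_iUnion, Finset.mem_range, mem_preimage, exists_prop] at hx
            obtain ⟨i, hi, hx⟩ := hx
            exact (hmem _ _).2 ⟨k, by omega, i, hx.1⟩
  refine ⟨⋃ k, D k, MeasurableSet.iUnion hDm, ?_, ?_⟩
  · calc (n : ENNReal) * μ (⋃ k, D k) ≤ n * ∑' k, μ (D k) := by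
          gcongr
          exact measure_iUnion_le _
      _ = ∑' k, n * μ (D k) := ENNReal.tsum_mul_left.symm
      _ ≤ 1 := by
          refine ENNReal.tsum_le_of_sum_range_le fun k => ?_
          rw [← Finset.mul_sum]
          exact (hstep k).trans prob_le_one
  · filter_upwards [hap] with x hx
    obtain ⟨k, hk⟩ := hU3 x hx
    have hex : ∃ k, x ∈ H k := ⟨k + 1, (hmem _ _).2 ⟨k, by omega, 0, hk⟩⟩
    have h1 := Nat.find_spec hex
    obtain ⟨j, hj, i, hi⟩ := (hmem _ _).1 h1
    refine ⟨i, mem_iUnion.2 ⟨j, hi, fun hcon => ?_⟩⟩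
    exact Nat.find_min hex hj (hinv j x i hcon)

section

variable (μ : Measure X) [IsProbabilityMeasure μ] (T : X → X) (B : Set X)

/-- The points whose first visit to `B` is at time `i`. -/
def lev (i : ℕ) : Set X := {x | T^[i] x ∈ B ∧ ∀ j < i, T^[j] x ∉ B}

lemma lev_meas {T : X → X} (hT : Measurable T) {B : Set X} (hB : MeasurableSet B) (i : ℕ) : MeasurableSet (lev T B i) := by
  have h1 : lev T B i = T^[i] ⁻¹' B ∩ ⋂ j ∈ Finset.range i, (T^[j] ⁻¹' B)ᶜ := by
    ext x
    simp only [lev, mem_ofPred_eq, mem_inter_iff, mem_preimage, mem_iInter, Finset.mem_range, mem_compl_iff]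
  rw [h1]
  exact ((hT.iterate i) hB).inter (Finset.measurableSet_biInter _ fun j _ => ((hT.iterate j) hB).compl)

lemma lev_unique {T : X → X} {B : Set X} {i i' : ℕ} {x : X} (h : x ∈ lev T B i) (h' : x ∈ lev T B i') : i = i' := by
  rcases lt_trichotomy i i' with h1 | h1 | h1
  · exact absurd h.1 (h'.2 i h1)
  · exact h1
  · exact absurd h'.1 (h.2 i' h1)

lemma lev_shift {T : X → X} {B : Set X} {i j : ℕ} {x : X} (hj : j ≤ i) (h : x ∈ lev T B i) : T^[j] x ∈ lev T B (i - j) := by
  refine ⟨?_, fun l hl => ?_⟩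
  · rw [← iter_add, Nat.sub_add_cancel hj]
    exact h.1
  · rw [← iter_add]
    exact h.2 _ (by omega)

/-- The points whose first visit to `B` is at a time `i` with `-i` in a set of residues. -/
def code {M : ℕ} (A : Set (ZMod M)) : Set X := {x | ∃ i : ℕ, x ∈ lev T B i ∧ -(i : ZMod M) ∈ A}

lemma code_meas {T : X → X} (hT : Measurable T) {B : Set X} (hB : MeasurableSet B) {M : ℕ} (A : Set (ZMod M)) :
    MeasurableSet (code T B A) := by
  classical
  have h1 : code T B A = ⋃ i : ℕ, {x | x ∈ lev T B i ∧ -(i : ZMod M) ∈ A} := by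
    ext x
    simp only [code, mem_ofPred_eq, mem_iUnion]
  rw [h1]
  refine MeasurableSet.iUnion fun i => ?_
  by_cases h : -(i : ZMod M) ∈ A
  · simp only [h, and_true]
    exact lev_meas hT hB i
  · simp only [h, and_false]
    exact MeasurableSet.empty

lemma code_iff {T : X → X} {B : Set X} {M : ℕ} (A : Set (ZMod M)) {i j : ℕ} {x : X} (hj : j ≤ i)
    (h : x ∈ lev T B i) : T^[j] x ∈ code T B A ↔ -(i : ZMod M) + j ∈ A := by
  have h1 := lev_shift hj h
  have h2 : -(((i - j : ℕ)) : ZMod M) = -(i : ZMod M) + j := by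
    rw [Nat.cast_sub hj]
    ring
  constructor
  · rintro ⟨l, hl, hl2⟩
    rw [lev_unique hl h1] at hl2
    rw [← h2]
    exact hl2
  · intro h3
    refine ⟨i - j, h1, ?_⟩
    rw [h2]
    exact h3

lemma exists_lev {T : X → X} {B : Set X} {x : X} (h : ∃ i, T^[i] x ∈ B) : ∃ i, x ∈ lev T B i := by
  classical
  exact ⟨Nat.find h, Nat.find_spec h, fun j hj => Nat.find_min h hj⟩

/-- The points with an early visit. -/
lemma early_le {T : X → X} (hT : MeasurePreserving T μ μ) {B : Set X} (hB : MeasurableSet B) (D : ℕ) :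
    μ.real (⋃ i ∈ Finset.range D, lev T B i) ≤ D * μ.real B := by
  refine (measureReal_biUnion_finset_le _ _).trans ?_
  calc ∑ i ∈ Finset.range D, μ.real (lev T B i) ≤ ∑ i ∈ Finset.range D, μ.real B := by
        refine Finset.sum_le_sum fun i _ => ?_
        have h1 : μ.real (T^[i] ⁻¹' B) = μ.real B := by
          unfold Measure.real
          rw [(hT.iterate i).measure_preimage hB.nullMeasurableSet]
        rw [← h1]
        exact measureReal_mono fun x hx => hx.1
    _ = D * μ.real B := by simp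

lemma residue_lower {T : X → X} (hT : MeasurePreserving T μ μ) {B : Set X} (hB : MeasurableSet B)
    (hsw : ∀ᵐ x ∂μ, ∃ i, T^[i] x ∈ B) {M : ℕ} (hM : 0 < M) (v : ZMod M) :
    (1 : ℝ) / M - μ.real B ≤ μ.real (code T B {v}) := by
  classical
  have : NeZero M := ⟨hM.ne'⟩
  have hM' : (0 : ℝ) < M := by exact_mod_cast hM
  have h1 : (1 : ℝ) ≤ μ.real ((⋃ i ∈ Finset.range M, lev T B i) ∪ ⋃ s ∈ Finset.range M, T^[s] ⁻¹' code T B {v}) := by
    have h2 : Set.univ ≤ᵐ[μ] ((⋃ i ∈ Finset.range M, lev T B i) ∪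
        ⋃ s ∈ Finset.range M, T^[s] ⁻¹' code T B {v} : Set X) := by
      filter_upwards [hsw] with x hx _
      obtain ⟨i, hi⟩ := exists_lev hx
      by_cases hiM : i < M
      · left
        simp only [mem_iUnion, Finset.mem_range, exists_prop]
        exact ⟨i, hiM, hi⟩
      · right
        simp only [mem_iUnion, Finset.mem_range, exists_prop, mem_preimage]
        push Not at hiM
        have hs : ((v + i : ZMod M)).val < M := ZMod.val_lt _
        refine ⟨(v + i : ZMod M).val, hs, ?_⟩
        rw [code_iff {v} (by omega) hi, ZMod.natCast_zmod_val, mem_singleton_iff]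
        ring
    have h3 := measure_mono_ae h2
    rw [measure_univ] at h3
    unfold Measure.real
    have := ENNReal.toReal_mono (measure_ne_top μ _) h3
    simpa using this
  have h2 : μ.real ((⋃ i ∈ Finset.range M, lev T B i) ∪ ⋃ s ∈ Finset.range M, T^[s] ⁻¹' code T B {v}) ≤
      M * μ.real B + M * μ.real (code T B {v}) := by
    refine (measureReal_union_le _ _).trans (add_le_add (early_le μ hT hB M) ?_)
    refine (measureReal_biUnion_finset_le _ _).trans ?_
    have h3 : ∀ s ∈ Finset.range M, μ.real (T^[s] ⁻¹' code T B {v}) = μ.real (code T B {v}) := by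
      intro s _
      unfold Measure.real
      rw [(hT.iterate s).measure_preimage (code_meas hT.measurable hB _).nullMeasurableSet]
    rw [Finset.sum_congr rfl h3]
    simp
  have h3 := h1.trans h2
  rw [sub_le_iff_le_add, div_le_iff₀ hM']
  nlinarith

lemma set_lower {T : X → X} (hT : MeasurePreserving T μ μ) {B : Set X} (hB : MeasurableSet B)
    (hsw : ∀ᵐ x ∂μ, ∃ i, T^[i] x ∈ B) {M : ℕ} (hM : 0 < M) (S : Set (ZMod M)) :
    (Nat.card S : ℝ) / M - M * μ.real B ≤ μ.real (code T B S) := by
  classical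
  have : NeZero M := ⟨hM.ne'⟩
  have hM' : (0 : ℝ) < M := by exact_mod_cast hM
  have hfin : Set.Finite S := Set.toFinite S
  have h1 : code T B S = ⋃ v ∈ hfin.toFinset, code T B {v} := by
    ext x
    simp only [code, mem_ofPred_eq, mem_iUnion, Set.Finite.mem_toFinset, mem_singleton_iff, exists_prop]
    constructor
    · rintro ⟨i, h1, h2⟩
      exact ⟨_, h2, i, h1, rfl⟩
    · rintro ⟨v, hv, i, h1, h2⟩
      exact ⟨i, h1, by rw [h2]; exact hv⟩
  have h2 : μ.real (⋃ v ∈ hfin.toFinset, code T B {v}) = ∑ v ∈ hfin.toFinset, μ.real (code T B {v}) := by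
    apply measureReal_biUnion_finset
    · intro v _ v' _ hvv
      rw [Function.onFun, Set.disjoint_left]
      rintro x ⟨i, hi1, hi2⟩ ⟨i', hi1', hi2'⟩
      apply hvv
      rw [mem_singleton_iff] at hi2 hi2'
      rw [← hi2, ← hi2', lev_unique hi1 hi1']
    · intro v _
      exact code_meas hT.measurable hB _
    · intro v _
      exact measure_ne_top _ _
  have h3 : (Nat.card S : ℝ) = hfin.toFinset.card := by
    rw [Nat.card_coe_set_eq, Set.ncard_eq_toFinset_card S hfin]
  have h4 : (hfin.toFinset.card : ℝ) ≤ M := by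
    have := Finset.card_le_univ hfin.toFinset
    rw [ZMod.card] at this
    exact_mod_cast this
  have h5 : 0 ≤ μ.real B := measureReal_nonneg
  rw [h1, h2, h3]
  calc (hfin.toFinset.card : ℝ) / M - M * μ.real B ≤ hfin.toFinset.card * (1 / M - μ.real B) := by
        rw [mul_sub, mul_one_div]
        nlinarith
    _ = ∑ v ∈ hfin.toFinset, ((1 : ℝ) / M - μ.real B) := by rw [Finset.sum_const, nsmul_eq_mul]
    _ ≤ _ := Finset.sum_le_sum fun v _ => residue_lower μ hT hB hsw hM v

end

end Pool.Agent.H201.Ap
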